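import Mathlib

namespace Pool.Agent.H.MP_d77547_co

open Finset

/-- Insert `x` in a row: replace the first entry larger than `x` (which is bumped out),
or append `x` at the end if there is none. -/
def insRow : List ℕ → ℕ → List ℕ × Option ℕ
  | [], x => ([x], none)
  | y :: r, x => if x < y then (x :: r, some y) else (y :: (insRow r x).1, (insRow r x).2)

/-- Schensted row insertion into a tableau, given as the list of its rows from the top. -/
def ins : List (List ℕ) → ℕ → List (List ℕ)
  | [], x => [[x]]
  | r :: T, x =>
    match (insRow r x).2 with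
    | none => (insRow r x).1 :: T
    | some y => (insRow r x).1 :: ins T y

/-- The RSK insertion tableau of a word. -/
def insTab (w : List ℕ) : List (List ℕ) := w.foldl ins []

/-- The index of the row containing `i` (top row is `0`). -/
def rowOf (T : List (List ℕ)) (i : ℕ) : ℕ := T.findIdx (fun r => decide (i ∈ r))

/-- Descent set of a tableau with entries `1..n`. -/
def des (n : ℕ) (T : List (List ℕ)) : Finset ℕ :=
  (Finset.Ico 1 n).filter (fun i => rowOf T i < rowOf T (i + 1))

/-- reading word, bottom row first -/
def rd : List (List ℕ) → List ℕ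
  | [] => []
  | r :: T => rd T ++ r

def pk (i : ℕ) (l : List ℕ) : List ℕ := l.filter (fun z => decide (z = i ∨ z = i + 1))

lemma pk_append (i : ℕ) (a b : List ℕ) : pk i (a ++ b) = pk i a ++ pk i b := by
  simp [pk]

lemma pk_nil_of (i : ℕ) (l : List ℕ) (h : ∀ z ∈ l, z ≠ i ∧ z ≠ i + 1) : pk i l = [] := by
  unfold pk
  rw [List.filter_eq_nil_iff]
  intro z hz
  have := h z hz
  simp; omega

lemma insRow_none (r : List ℕ) (x : ℕ) (h : (insRow r x).2 = none) :
    (insRow r x).1 = r ++ [x] ∧ ∀ z ∈ r, z ≤ x := by
  induction r with
  | nil => simp [insRow]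
  | cons y r ih =>
    by_cases hxy : x < y
    · simp [insRow, hxy] at h
    · simp only [insRow, hxy, if_false] at h ⊢
      obtain ⟨h1, h2⟩ := ih h
      refine ⟨by simp [h1], ?_⟩
      intro z hz
      rcases List.mem_cons.1 hz with rfl | hz
      · omega
      · exact h2 z hz

lemma insRow_some (r : List ℕ) (x y : ℕ) (h : (insRow r x).2 = some y) :
    ∃ A B, r = A ++ y :: B ∧ (insRow r x).1 = A ++ x :: B ∧ x < y ∧ ∀ z ∈ A, z ≤ x := by
  induction r with
  | nil => simp [insRow] at h
  | cons z r ih =>
    by_cases hxy : x < z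
    · simp only [insRow, hxy, if_true, Option.some.injEq] at h ⊢
      subst h
      exact ⟨[], r, by simp, by simp, hxy, by simp⟩
    · simp only [insRow, hxy, if_false] at h ⊢
      obtain ⟨A, B, h1, h2, h3, h4⟩ := ih h
      refine ⟨z :: A, B, by simp [h1], by simp [h2], h3, ?_⟩
      intro u hu
      rcases List.mem_cons.1 hu with rfl | hu
      · omega
      · exact h4 u hu

def Good (T : List (List ℕ)) : Prop := ∀ r ∈ T, r.Pairwise (· < ·)

lemma ins_spec (T : List (List ℕ)) (x : ℕ) (hT : Good T) (hnd : (rd T ++ [x]).Nodup) :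
    Good (ins T x) ∧ (rd (ins T x)).Perm (rd T ++ [x]) ∧
      ∀ i, pk i (rd (ins T x)) = pk i (rd T ++ [x]) := by
  induction T generalizing x with
  | nil => simp [ins, Good, rd]
  | cons r T ih =>
    have hr : r.Pairwise (· < ·) := hT r (by simp)
    have hT' : Good T := fun s hs => hT s (by simp [hs])
    have hxr : x ∉ r := by
      intro hx
      simp only [rd] at hnd
      rw [List.nodup_append] at hnd
      exact hnd.2.2 x (by simp [hx]) x (by simp) rfl
    cases h : (insRow r x).2 with
    | none =>
      obtain ⟨h1, h2⟩ := insRow_none r x h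
      have e : ins (r :: T) x = (r ++ [x]) :: T := by simp [ins, h, h1]
      rw [e]
      refine ⟨?_, by simp [rd], fun i => by simp [rd]⟩
      intro s hs
      rcases List.mem_cons.1 hs with rfl | hs
      · rw [List.pairwise_append]
        refine ⟨hr, by simp, ?_⟩
        intro a ha b hb
        simp at hb; subst hb
        exact lt_of_le_of_ne (h2 a ha) (fun e => hxr (e ▸ ha))
      · exact hT' s hs
    | some y =>
      obtain ⟨A, B, h1, h2, h3, h4⟩ := insRow_some r x y h
      have e : ins (r :: T) x = (A ++ x :: B) :: ins T y := by simp [ins, h, h2]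
      rw [e]
      subst h1
      rw [List.pairwise_append, List.pairwise_cons] at hr
      obtain ⟨hA, ⟨hyB, hB⟩, hAB⟩ := hr
      have hAx : ∀ z ∈ A, z < x := fun z hz =>
        lt_of_le_of_ne (h4 z hz) (fun e => hxr (by simp [← e, hz]))
      have hnd' : (rd T ++ [y]).Nodup := by
        refine List.Nodup.sublist ?_ hnd
        simp only [rd, List.append_assoc]
        refine List.Sublist.append_left ?_ _
        simp
      obtain ⟨g1, g2, g3⟩ := ih y hT' hnd'
      refine ⟨?_, ?_, fun i => ?_⟩
      · intro s hs
        rcases List.mem_cons.1 hs with rfl | hs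
        · rw [List.pairwise_append, List.pairwise_cons]
          refine ⟨hA, ⟨fun b hb => h3.trans (hyB b hb), hB⟩, ?_⟩
          intro a ha b hb
          rcases List.mem_cons.1 hb with rfl | hb
          · exact hAx a ha
          · exact hAB a ha b (by simp [hb])
        · exact g1 s hs
      · simp only [rd]
        refine (g2.append_right _).trans ?_
        rw [List.perm_iff_count]
        intro a
        simp [List.count_append, List.count_cons]
        omega
      · simp only [rd, pk_append, g3 i, List.append_assoc]
        congr 1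
        have e1 : pk i (x :: B) = pk i [x] ++ pk i B := pk_append i [x] B
        have e2 : pk i (y :: B) = pk i [y] ++ pk i B := pk_append i [y] B
        rw [e1, e2]
        by_cases hy : y = i ∨ y = i + 1
        · have hA0 : pk i A = [] := pk_nil_of i A (fun z hz => by have := hAx z hz; omega)
          by_cases hx : x = i ∨ x = i + 1
          · have hB0 : pk i B = [] := pk_nil_of i B (fun z hz => by have := hyB z hz; omega)
            simp [hA0, hB0]
          · have hx0 : pk i [x] = [] := pk_nil_of i _ (fun z hz => by simp at hz; omega)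
            simp [hA0, hx0]
        · have hy0 : pk i [y] = [] := pk_nil_of i _ (fun z hz => by simp at hz; omega)
          by_cases hx : x = i ∨ x = i + 1
          · have hB0 : pk i B = [] := pk_nil_of i B (fun z hz => by have := hyB z hz; omega)
            simp [hy0, hB0]
          · have hx0 : pk i [x] = [] := pk_nil_of i _ (fun z hz => by simp at hz; omega)
            simp [hy0, hx0]

lemma foldl_spec (w : List ℕ) (T : List (List ℕ)) (hT : Good T) (hnd : (rd T ++ w).Nodup) :
    Good (w.foldl ins T) ∧ (rd (w.foldl ins T)).Perm (rd T ++ w) ∧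
      ∀ i, pk i (rd (w.foldl ins T)) = pk i (rd T ++ w) := by
  induction w generalizing T with
  | nil => simp [hT]
  | cons x w ih =>
    have h1 : (rd T ++ [x]).Nodup := by
      refine List.Nodup.sublist ?_ hnd
      exact List.Sublist.append_left (by simp) _
    obtain ⟨g1, g2, g3⟩ := ins_spec T x hT h1
    have hp : (rd (ins T x) ++ w).Perm (rd T ++ x :: w) := by
      simpa using g2.append_right w
    obtain ⟨k1, k2, k3⟩ := ih (ins T x) g1 (hp.nodup_iff.2 hnd)
    refine ⟨k1, k2.trans hp, fun i => ?_⟩
    simp only [List.foldl_cons]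
    rw [k3 i, pk_append, g3 i, ← pk_append]
    simp

lemma mem_pk {i z : ℕ} {l : List ℕ} : z ∈ pk i l ↔ z ∈ l ∧ (z = i ∨ z = i + 1) := by
  simp [pk]

/-- rows versus order in the reading word -/
lemma row_lt_iff (T : List (List ℕ)) (i : ℕ) (hT : Good T) (hnd : (rd T).Nodup)
    (h1 : i ∈ rd T) (h2 : i + 1 ∈ rd T) :
    rowOf T i < rowOf T (i + 1) ↔ List.Sublist [i + 1, i] (rd T) := by
  induction T with
  | nil => simp [rd] at h1
  | cons r T ih =>
    have hr : r.Pairwise (· < ·) := hT r (by simp)
    have hT' : Good T := fun s hs => hT s (by simp [hs])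
    simp only [rd] at hnd h1 h2 ⊢
    rw [List.nodup_append] at hnd
    obtain ⟨n1, n2, n3⟩ := hnd
    have hno : ¬ List.Sublist [i + 1, i] r := fun h => by
      have := hr.sublist h
      simp at this
    simp only [rowOf, List.findIdx_cons]
    rw [List.sublist_append_iff]
    by_cases a : i ∈ r <;> by_cases b : i + 1 ∈ r
    · simp only [a, b, decide_true, cond_true, lt_irrefl, false_iff]
      rintro ⟨l1, l2, e, s1, s2⟩
      rcases l1 with _ | ⟨u, l1⟩
      · simp at e; subst e; exact hno s2
      · simp at e
        exact n3 (i + 1) (s1.subset (by simp [e.1])) (i + 1) b rfl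
    · simp only [a, b, decide_true, decide_false, cond_true, cond_false, Nat.zero_lt_succ, true_iff]
      refine ⟨[i + 1], [i], rfl, ?_, by simpa using a⟩
      simpa [b] using h2
    · simp only [a, b, decide_true, decide_false, cond_true, cond_false, Nat.not_lt_zero, false_iff]
      rintro ⟨l1, l2, e, s1, s2⟩
      rcases l1 with _ | ⟨u, l1⟩
      · simp at e; subst e; exact hno s2
      · simp at e
        exact n3 (i + 1) (s1.subset (by simp [e.1])) (i + 1) b rfl
    · simp only [a, b, decide_false, cond_false, Nat.add_lt_add_iff_right]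
      have := ih hT' n1 (by simpa [a] using h1) (by simpa [b] using h2)
      simp only [rowOf] at this
      rw [this]
      constructor
      · intro h; exact ⟨_, [], by simp, h, by simp⟩
      · rintro ⟨l1, l2, e, s1, s2⟩
        rcases l2 with _ | ⟨u, l2⟩
        · simp at e; subst e; exact s1
        · exfalso
          have hu : u ∈ [i + 1, i] := by rw [e]; simp
          have hm := s2.subset (List.mem_cons_self)
          simp at hu
          rcases hu with hu | hu
          · exact b (hu ▸ hm)
          · exact a (hu ▸ hm)

lemma sub_pk (i : ℕ) (l : List ℕ) : List.Sublist [i + 1, i] l ↔ List.Sublist [i + 1, i] (pk i l) := by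
  constructor
  · intro h
    have := h.filter (fun z => decide (z = i ∨ z = i + 1))
    simpa [pk] using this
  · intro h; exact h.trans List.filter_sublist

lemma des_iff (w : List ℕ) (hw : w.Nodup) (i : ℕ) (h1 : i ∈ w) (h2 : i + 1 ∈ w) :
    rowOf (insTab w) i < rowOf (insTab w) (i + 1) ↔ List.Sublist [i + 1, i] w := by
  obtain ⟨g1, g2, g3⟩ := foldl_spec w [] (by simp [Good]) (by simpa [rd] using hw)
  simp only [rd, List.nil_append] at g2 g3
  unfold insTab
  rw [row_lt_iff _ i g1 (g2.nodup_iff.2 hw) (g2.mem_iff.2 h1) (g2.mem_iff.2 h2), sub_pk, g3 i,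
    ← sub_pk]

lemma sub_ofFn {n : ℕ} (f : Fin n → ℕ) (a b : ℕ) :
    List.Sublist [a, b] (List.ofFn f) ↔ ∃ p q : Fin n, p < q ∧ f p = a ∧ f q = b := by
  rw [List.sublist_iff_exists_fin_orderEmbedding_get_eq]
  constructor
  · rintro ⟨g, hg⟩
    have h0 := hg ⟨0, by simp⟩
    have h1 := hg ⟨1, by simp⟩
    simp at h0 h1
    refine ⟨Fin.cast (by simp) (g ⟨0, by simp⟩), Fin.cast (by simp) (g ⟨1, by simp⟩), ?_, ?_, ?_⟩
    · have : g ⟨0, by simp⟩ < g ⟨1, by simp⟩ := g.strictMono (by simp [Fin.lt_def])
      exact this
    · exact h0.symm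
    · exact h1.symm
  · rintro ⟨p, q, h, rfl, rfl⟩
    refine ⟨OrderEmbedding.ofStrictMono
      (fun k => if k.val = 0 then Fin.cast (by simp) p else Fin.cast (by simp) q) ?_, ?_⟩
    · intro k l hkl
      have hl := l.2
      simp at hl
      have : k.val < l.val := hkl
      have hk : k.val = 0 := by omega
      have hl' : l.val ≠ 0 := by omega
      simp only [hk, hl', if_true, if_false]
      exact h
    · intro k
      rcases k with ⟨k, hk⟩
      simp at hk
      interval_cases k <;> simp

end Pool.Agent.H.MP_d77547_co
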