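import Mathlib
import Pool.Agent.H.MP_d77547_co.A

namespace Pool.Agent.H.MP_d77547_co

open Finset

/-- `f_β(π)` at position `j`: if `B` is the block of the value `π j` and `j` is the `k`-th
(from `0`) position carrying an element of `B`, the new entry is the `k`-th smallest
element of `B`. -/
def refill {n : ℕ} (β : Finpartition (univ : Finset (Fin n))) (π : Equiv.Perm (Fin n))
    (j : Fin n) : Fin n :=
  ((β.part (π j)).sort (· ≤ ·)).getD
    (univ.filter (fun j' => j' < j ∧ π j' ∈ β.part (π j))).card (π j)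

/-- One-line notation with values `1..n`. -/
def word {n : ℕ} (f : Fin n → Fin n) : List ℕ := List.ofFn (fun j => (f j).val + 1)

/-- The fundamental quasisymmetric polynomial `F_S` of degree `n` in `N` variables; the
index `j : Fin n` stands for `j+1 ∈ {1..n}`. -/
noncomputable def fund (R : Type*) [CommSemiring R] (N n : ℕ) (S : Finset ℕ) :
    MvPolynomial (Fin N) R :=
  ∑ i ∈ univ.filter (fun i : Fin n → Fin N => (∀ j j', j ≤ j' → i j ≤ i j') ∧
      ∀ j j' : Fin n, j'.val = j.val + 1 → j.val + 1 ∈ S → i j < i j'),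
    ∏ j, MvPolynomial.X (i j)

variable {n : ℕ}

lemma rank_lt (β : Finpartition (univ : Finset (Fin n))) (π : Equiv.Perm (Fin n)) (j : Fin n) :
    (univ.filter (fun j' => j' < j ∧ π j' ∈ β.part (π j))).card <
      ((β.part (π j)).sort (· ≤ ·)).length := by
  rw [length_sort]
  have h1 : (univ.filter (fun j' => π j' ∈ β.part (π j))).card = (β.part (π j)).card := by
    refine card_nbij' π π.symm ?_ ?_ ?_ ?_ <;> intro x hx <;> simp_all
  rw [← h1]
  refine card_lt_card ⟨fun x hx => ?_, fun h => ?_⟩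
  · simp only [mem_filter] at hx ⊢; exact ⟨hx.1, hx.2.2⟩
  · have := h (x := j) (by simp)
    simp at this

lemma refill_mem (β : Finpartition (univ : Finset (Fin n))) (π : Equiv.Perm (Fin n)) (j : Fin n) :
    refill β π j ∈ β.part (π j) := by
  unfold refill
  rw [List.getD_eq_getElem _ _ (rank_lt β π j)]
  exact (mem_sort (· ≤ ·)).1 (List.getElem_mem _)

lemma refill_lt (β : Finpartition (univ : Finset (Fin n))) (π : Equiv.Perm (Fin n)) (j k : Fin n)
    (h : j < k) (e : β.part (π j) = β.part (π k)) : refill β π j < refill β π k := by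
  unfold refill
  have a := rank_lt β π j
  have b := rank_lt β π k
  rw [List.getD_eq_getElem _ _ a, List.getD_eq_getElem _ _ b]
  have hs := (sortedLT_sort (β.part (π k))).pairwise
  rw [List.pairwise_iff_getElem] at hs
  have hlt : (univ.filter (fun j' => j' < j ∧ π j' ∈ β.part (π j))).card <
      (univ.filter (fun j' => j' < k ∧ π j' ∈ β.part (π k))).card := by
    refine card_lt_card ⟨fun x hx => ?_, fun h' => ?_⟩
    · simp only [mem_filter] at hx ⊢; exact ⟨hx.1, hx.2.1.trans h, e ▸ hx.2.2⟩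
    · have := h' (x := j) (by simp [h, ← e])
      simp at this
  have := hs _ _ (e ▸ a) b hlt
  simpa [e] using this

lemma refill_inj (β : Finpartition (univ : Finset (Fin n))) (π : Equiv.Perm (Fin n)) :
    Function.Injective (refill β π) := by
  intro j k h
  have e : β.part (π j) = β.part (π k) := by
    rw [← (β.mem_part_iff_part_eq_part (mem_univ _) (mem_univ _)).1 (refill_mem β π j), h,
      (β.mem_part_iff_part_eq_part (mem_univ _) (mem_univ _)).1 (refill_mem β π k)]
  rcases lt_trichotomy j k with c | c | c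
  · exact absurd h (refill_lt β π j k c e).ne
  · exact c
  · exact absurd h (refill_lt β π k j c e.symm).ne'

noncomputable def refP (β : Finpartition (univ : Finset (Fin n))) (π : Equiv.Perm (Fin n)) :
    Equiv.Perm (Fin n) :=
  Equiv.ofBijective (refill β π) (Finite.injective_iff_bijective.1 (refill_inj β π))

def Comp {N : ℕ} (w : Equiv.Perm (Fin n)) (i : Fin n → Fin N) : Prop :=
  Monotone i ∧ ∀ j j', j < j' → i j = i j' → w.symm j < w.symm j'

lemma mem_des (w : Equiv.Perm (Fin n)) (j j' : Fin n) (h : j'.val = j.val + 1) :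
    j.val + 1 ∈ des n (insTab (word w)) ↔ w.symm j' < w.symm j := by
  have hnd : (word w).Nodup := by
    unfold word
    rw [List.nodup_ofFn]
    intro a b hab
    simp only [Nat.add_right_cancel_iff] at hab
    exact w.injective (Fin.ext hab)
  unfold des
  rw [mem_filter, des_iff _ hnd]
  · unfold word
    rw [sub_ofFn]
    constructor
    · rintro ⟨-, p, q, hpq, h1, h2⟩
      have e1 : w p = j' := Fin.ext (by omega)
      have e2 : w q = j := Fin.ext (by omega)
      rw [← e1, ← e2]; simpa using hpq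
    · intro hlt
      refine ⟨by have := j'.2; simp; omega, w.symm j', w.symm j, hlt, by simp [h], by simp⟩
  · simp only [word, List.mem_ofFn]; exact ⟨w.symm j, by simp⟩
  · simp only [word, List.mem_ofFn]; exact ⟨w.symm j', by simp [h]⟩

lemma cond_iff {N : ℕ} (w : Equiv.Perm (Fin n)) (i : Fin n → Fin N) :
    ((∀ j j', j ≤ j' → i j ≤ i j') ∧
      ∀ j j' : Fin n, j'.val = j.val + 1 → j.val + 1 ∈ des n (insTab (word w)) → i j < i j') ↔
    Comp w i := by
  constructor
  · rintro ⟨h1, h2⟩
    refine ⟨fun a b h => h1 a b h, ?_⟩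
    rcases n with _ | m
    · intro j; exact j.elim0
    have : StrictMono (fun j => toLex (i j, w.symm j)) := by
      rw [Fin.strictMono_iff_lt_succ]
      intro j
      rw [Prod.Lex.toLex_lt_toLex]
      have a := h1 j.castSucc j.succ (Fin.castSucc_lt_succ).le
      have b := h2 j.castSucc j.succ (by simp)
      rw [mem_des w _ j.succ (by simp)] at b
      rcases a.eq_or_lt with a | a
      · right
        refine ⟨a, ?_⟩
        rcases lt_trichotomy (w.symm j.castSucc) (w.symm j.succ) with c | c | c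
        · exact c
        · exact absurd (w.symm.injective c) (Fin.castSucc_lt_succ).ne
        · exact absurd a (b c).ne
      · exact Or.inl a
    intro j j' h e
    have := this h
    rw [Prod.Lex.toLex_lt_toLex] at this
    rcases this with c | c
    · exact absurd e c.ne
    · exact c.2
  · rintro ⟨h1, h2⟩
    refine ⟨fun a b h => h1 h, fun j j' h hd => ?_⟩
    rw [mem_des w j j' h] at hd
    have hj : j < j' := by rw [Fin.lt_def]; omega
    refine lt_of_le_of_ne (h1 hj.le) (fun e => ?_)
    exact absurd (h2 j j' hj e) hd.not_gt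

lemma comp_iff {N : ℕ} (w : Equiv.Perm (Fin n)) (i : Fin n → Fin N) :
    Comp w i ↔ w.symm = Tuple.sort (i ∘ w) := by
  rw [Tuple.eq_sort_iff]
  have : (i ∘ w) ∘ w.symm = i := by ext; simp
  simp [Comp, this]

/-- kernel partition -/
def kerP {a : ℕ} (d : Fin n → Fin a) : Finpartition (univ : Finset (Fin n)) :=
  haveI : DecidableRel (Setoid.ker d) := fun x y => inferInstanceAs (Decidable (d x = d y))
  Finpartition.ofSetoid (Setoid.ker d)

lemma mem_kerP {a : ℕ} (d : Fin n → Fin a) (x y : Fin n) : y ∈ (kerP d).part x ↔ d x = d y := by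
  letI : DecidableRel (Setoid.ker d) := fun x y => inferInstanceAs (Decidable (d x = d y))
  exact Finpartition.mem_part_ofSetoid_iff_rel (s := Setoid.ker d)

lemma part_ext (β γ : Finpartition (univ : Finset (Fin n))) (h : ∀ x, β.part x = γ.part x) :
    β = γ := by
  ext B
  constructor
  · intro hB
    obtain ⟨x, -, rfl⟩ := β.part_surjOn hB
    rw [h]; simp
  · intro hB
    obtain ⟨x, -, rfl⟩ := γ.part_surjOn hB
    rw [← h]; simp

lemma card_ker (a : ℕ) (β : Finpartition (univ : Finset (Fin n))) :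
    (univ.filter (fun d : Fin n → Fin a => kerP d = β)).card = a.descFactorial β.parts.card := by
  have := Fintype.card_embedding_eq (α := β.parts) (β := Fin a)
  simp only [Fintype.card_fin, Fintype.card_coe] at this
  rw [← this, ← card_univ]
  symm
  have pm : ∀ x y, y ∈ β.part x ↔ β.part x = β.part y := fun x y => by
    rw [β.mem_part_iff_part_eq_part (mem_univ _) (mem_univ _), eq_comm]
  refine card_bij (fun j _ => fun v => j ⟨β.part v, by simp⟩) ?_ ?_ ?_
  · intro j _
    rw [mem_filter]
    refine ⟨mem_univ _, part_ext _ _ (fun x => ?_)⟩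
    ext y
    rw [mem_kerP, pm]
    simp
  · intro j _ k _ h
    ext ⟨B, hB⟩
    obtain ⟨x, -, rfl⟩ := β.part_surjOn hB
    exact congrArg Fin.val (congrFun h x)
  · intro d hd
    rw [mem_filter] at hd
    have hd := hd.2
    have ex : ∀ B : β.parts, ∃ x, β.part x = B := fun B => by
      obtain ⟨x, -, h⟩ := β.part_surjOn B.2
      exact ⟨x, h⟩
    choose s hs using ex
    have key : ∀ x y, d x = d y ↔ β.part x = β.part y := fun x y => by
      rw [← mem_kerP, hd, pm]
    refine ⟨⟨fun B => d (s B), fun B C h => ?_⟩, mem_univ _, ?_⟩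
    · apply Subtype.ext
      rw [← hs, ← hs]; exact (key _ _).1 h
    · funext v
      exact (key _ _).2 (hs _)

lemma uniq {a : ℕ} (e d : Fin n → Fin a) (w w' : Equiv.Perm (Fin n)) (h : ∀ p, d (w p) = e p)
    (h' : ∀ p, d (w' p) = e p) (m : ∀ p q, p < q → e p = e q → w p < w q)
    (m' : ∀ p q, p < q → e p = e q → w' p < w' q) : w = w' := by
  obtain ⟨s1, s2⟩ := (Tuple.eq_sort_iff (f := e)).1 rfl
  have mono : ∀ u : Equiv.Perm (Fin n), (∀ p, d (u p) = e p) →
      (∀ p q, p < q → e p = e q → u p < u q) →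
      Monotone ((fun v => toLex (d v, v)) ∘ ⇑(u * Tuple.sort e)) := by
    intro u hu mu
    refine StrictMono.monotone (fun j k hjk => ?_)
    simp only [Function.comp, Equiv.Perm.coe_mul, hu, Prod.Lex.toLex_lt_toLex]
    rcases (s1 hjk.le).eq_or_lt with c | c
    · exact Or.inr ⟨c, mu _ _ (s2 j k hjk c) c⟩
    · exact Or.inl c
  have := Tuple.unique_monotone (mono w h m) (mono w' h' m')
  have e2 : w * Tuple.sort e = w' * Tuple.sort e := by
    ext j
    have := congrFun this j
    simp only [Function.comp, EmbeddingLike.apply_eq_iff_eq, Prod.mk.injEq] at this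
    exact congrArg Fin.val this.2
  exact mul_right_cancel e2

lemma phi_col {a : ℕ} (d : Fin n → Fin a) (π : Equiv.Perm (Fin n)) (p : Fin n) :
    d (refP (kerP d) π p) = d (π p) := ((mem_kerP d _ _).1 (refill_mem _ π p)).symm

lemma phi_lt {a : ℕ} (d : Fin n → Fin a) (π : Equiv.Perm (Fin n)) (p q : Fin n) (h : p < q)
    (e : d (π p) = d (π q)) : refP (kerP d) π p < refP (kerP d) π q := by
  refine refill_lt _ π p q h ?_
  ext y; rw [mem_kerP, mem_kerP, e]

open scoped Classical in
lemma bij1 {R : Type*} [CommRing R] {a N : ℕ} (x : Fin N → R) :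
    ∑ t ∈ univ.filter (fun t : (Fin n → Fin a) × Equiv.Perm (Fin n) × (Fin n → Fin N) =>
        Comp (refP (kerP t.1) t.2.1) t.2.2), ∏ j, x (t.2.2 j) =
    ∑ t ∈ univ.filter (fun t : (Fin n → Fin a) × Equiv.Perm (Fin n) × (Fin n → Fin N) =>
        (∀ p, t.1 (t.2.1 p) = t.1 p) ∧ ∀ p q, p < q → t.1 p = t.1 q → t.2.2 p ≤ t.2.2 q),
      ∏ j, x (t.2.2 j) := by
  refine sum_nbij'
    (fun t => (t.1 ∘ t.2.1, (refP (kerP t.1) t.2.1)⁻¹ * t.2.1, t.2.2 ∘ refP (kerP t.1) t.2.1))
    (fun t => (t.1 ∘ Tuple.sort t.2.2, (Tuple.sort t.2.2)⁻¹ * t.2.1, t.2.2 ∘ Tuple.sort t.2.2))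
    ?_ ?_ ?_ ?_ ?_
  · rintro ⟨d, π, i⟩ ht
    simp only [mem_filter, mem_univ, true_and] at ht ⊢
    refine ⟨fun p => ?_, fun p q h e => ht.1 (phi_lt d π p q h e).le⟩
    simp only [Function.comp, Equiv.Perm.coe_mul]
    rw [← phi_col d π]; simp
  · rintro ⟨e, τ, c⟩ ht
    simp only [mem_filter, mem_univ, true_and] at ht ⊢
    obtain ⟨s1, s2⟩ := (Tuple.eq_sort_iff (f := c)).1 rfl
    have : refP (kerP (e ∘ Tuple.sort c)) ((Tuple.sort c)⁻¹ * τ) = (Tuple.sort c)⁻¹ := by
      refine uniq e (e ∘ Tuple.sort c) _ _ (fun p => ?_) (fun p => by simp) (fun p q h he => ?_)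
        (fun p q h he => ?_)
      · rw [phi_col (e ∘ Tuple.sort c)]; simp [ht.1]
      · exact phi_lt _ _ p q h (by simp [ht.1, he])
      · by_contra hc
        rcases (not_lt.1 hc).eq_or_lt with c1 | c1
        · exact h.ne' ((Tuple.sort c)⁻¹.injective c1)
        · have a1 := s1 c1.le
          simp only [Function.comp, Equiv.Perm.coe_inv, Equiv.apply_symm_apply] at a1
          have a2 := s2 _ _ c1 (by simpa using le_antisymm a1 (ht.2 p q h he))
          simp at a2
          exact absurd h a2.not_gt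
    rw [this]
    exact ⟨s1, fun j j' h he => s2 j j' h he⟩
  · rintro ⟨d, π, i⟩ ht
    simp only [mem_filter, mem_univ, true_and] at ht ⊢
    rw [comp_iff] at ht
    rw [← ht]
    refine Prod.ext ?_ (Prod.ext ?_ ?_)
    · funext p
      simp only [Function.comp]
      rw [← phi_col d π]; simp
    · ext p; simp
    · funext p; simp
  · rintro ⟨e, τ, c⟩ ht
    simp only [mem_filter, mem_univ, true_and] at ht ⊢
    obtain ⟨s1, s2⟩ := (Tuple.eq_sort_iff (f := c)).1 rfl
    have : refP (kerP (e ∘ Tuple.sort c)) ((Tuple.sort c)⁻¹ * τ) = (Tuple.sort c)⁻¹ := by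
      refine uniq e (e ∘ Tuple.sort c) _ _ (fun p => ?_) (fun p => by simp) (fun p q h he => ?_)
        (fun p q h he => ?_)
      · rw [phi_col (e ∘ Tuple.sort c)]; simp [ht.1]
      · exact phi_lt _ _ p q h (by simp [ht.1, he])
      · by_contra hc
        rcases (not_lt.1 hc).eq_or_lt with c1 | c1
        · exact h.ne' ((Tuple.sort c)⁻¹.injective c1)
        · have a1 := s1 c1.le
          simp only [Function.comp, Equiv.Perm.coe_inv, Equiv.apply_symm_apply] at a1
          have a2 := s2 _ _ c1 (by simpa using le_antisymm a1 (ht.2 p q h he))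
          simp at a2
          exact absurd h a2.not_gt
    rw [this]
    refine Prod.ext ?_ (Prod.ext ?_ ?_)
    · funext p; simp [ht.1]
    · simp
    · funext p; simp
  · rintro ⟨d, π, i⟩ -
    exact (Equiv.prod_comp (refP (kerP d) π) (fun j => x (i j))).symm

open scoped Classical in
lemma bij2 {R : Type*} [CommRing R] {a N : ℕ} (x : Fin N → R) :
    ∑ t ∈ univ.filter (fun t : (Fin n → Fin a) × Equiv.Perm (Fin n) × (Fin n → Fin N) =>
        (∀ p, t.1 (t.2.1 p) = t.1 p) ∧ ∀ p q, p < q → t.1 p = t.1 q → t.2.2 p ≤ t.2.2 q),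
      ∏ j, x (t.2.2 j) =
    ∑ t ∈ univ.filter (fun t : Equiv.Perm (Fin n) × (Fin n → Fin a ×ₗ Fin N) => Monotone t.2),
      ∏ j, x (ofLex (t.2 j)).2 := by
  have key : ∀ (σ : Equiv.Perm (Fin n)) (g : Fin n → Fin a ×ₗ Fin N), Monotone g →
      (fun j => (ofLex (g (σ j))).1) ∘ Tuple.sort (fun j => (ofLex (g (σ j))).1) =
        fun j => (ofLex (g j)).1 := by
    intro σ g hg
    have h1 := Tuple.comp_perm_comp_sort_eq_comp_sort (f := fun j => (ofLex (g j)).1) (σ := σ)
    have h2 : Monotone fun j => (ofLex (g j)).1 := fun j k h => Prod.Lex.monotone_fst _ _ (hg h)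
    rw [Tuple.sort_eq_refl_iff_monotone.2 h2] at h1
    exact h1
  refine sum_nbij'
    (fun t => ((Tuple.sort t.1)⁻¹ * t.2.1,
      fun j => toLex (t.1 (Tuple.sort t.1 j), t.2.2 (Tuple.sort t.1 j))))
    (fun t => (fun j => (ofLex (t.2 (t.1 j))).1,
      Tuple.sort (fun j => (ofLex (t.2 (t.1 j))).1) * t.1,
      fun j => (ofLex (t.2 ((Tuple.sort (fun j => (ofLex (t.2 (t.1 j))).1))⁻¹ j))).2))
    ?_ ?_ ?_ ?_ ?_
  · rintro ⟨e, τ, c⟩ ht
    simp only [mem_filter, mem_univ, true_and] at ht ⊢
    obtain ⟨s1, s2⟩ := (Tuple.eq_sort_iff (f := e)).1 rfl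
    intro j k hjk
    rcases hjk.eq_or_lt with rfl | hjk
    · exact le_rfl
    rw [Prod.Lex.toLex_le_toLex]
    rcases (s1 hjk.le).eq_or_lt with c1 | c1
    · exact Or.inr ⟨c1, ht.2 _ _ (s2 j k hjk c1) c1⟩
    · exact Or.inl c1
  · rintro ⟨σ, g⟩ ht
    simp only [mem_filter, mem_univ, true_and] at ht ⊢
    have k := key σ g ht
    set e := fun j => (ofLex (g (σ j))).1 with he
    obtain ⟨s1, s2⟩ := (Tuple.eq_sort_iff (f := e)).1 rfl
    refine ⟨fun p => congrFun k (σ p), fun p q h hpq => ?_⟩
    have hlt : (Tuple.sort e)⁻¹ p ≤ (Tuple.sort e)⁻¹ q := by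
      by_contra hc
      have := s2 _ _ (not_le.1 hc) (by simpa using hpq.symm)
      simp at this
      exact absurd h this.not_gt
    have a1 := Prod.Lex.le_iff.1 (ht hlt)
    have k1 := congrFun k ((Tuple.sort e)⁻¹ p)
    have k2 := congrFun k ((Tuple.sort e)⁻¹ q)
    simp only [Function.comp, Equiv.Perm.coe_inv, Equiv.apply_symm_apply] at k1 k2 a1 ⊢
    rcases a1 with a1 | a1
    · rw [← k1, ← k2] at a1
      exact absurd hpq a1.ne
    · exact a1.2
  · rintro ⟨e, τ, c⟩ ht
    simp only [mem_filter, mem_univ, true_and] at ht ⊢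
    have : (fun j => e (Tuple.sort e (((Tuple.sort e)⁻¹ * τ) j))) = e := by
      funext j; simp [ht.1]
    simp only [ofLex_toLex, this]
    refine Prod.ext rfl (Prod.ext ?_ ?_)
    · simp
    · funext p; simp
  · rintro ⟨σ, g⟩ ht
    simp only [mem_filter, mem_univ, true_and] at ht ⊢
    have k := key σ g ht
    refine Prod.ext (by simp) ?_
    funext j
    have := congrFun k j
    simp only [Function.comp] at this
    simp only [this]
    simp
  · rintro ⟨e, τ, c⟩ -
    exact (Equiv.prod_comp (Tuple.sort e) (fun j => x (c j))).symm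

end Pool.Agent.H.MP_d77547_co
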