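import Mathlib
import Pool.Agent.H.MP_d77547_co.B

namespace Pool.Agent.H.MP_d77547_co

open Finset

variable {n : ℕ}

open scoped Classical in
lemma mono_sym {R Ω : Type*} [CommRing R] [LinearOrder Ω] [Fintype Ω] (y : Ω → R) :
    ∑ g ∈ univ.filter (fun g : Fin n → Ω => Monotone g), ∏ j, y (g j) =
      ∑ s : Sym Ω n, (s.1.map y).prod := by
  refine sum_bij (fun g _ => (⟨(List.ofFn g : Multiset Ω), by simp⟩ : Sym Ω n)) (fun _ _ => mem_univ _) ?_ ?_ ?_
  · intro g hg h hh e
    simp only [mem_filter, mem_univ, true_and] at hg hh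
    have e' : (List.ofFn g).Perm (List.ofFn h) := Multiset.coe_eq_coe.1 (congrArg Subtype.val e)
    exact List.ofFn_injective
      (e'.eq_of_pairwise' hg.sortedLE_ofFn.pairwise hh.sortedLE_ofFn.pairwise)
  · rintro ⟨s, hs⟩ -
    have hl : (s.sort (· ≤ ·)).length = n := by simp [hs]
    subst hs
    refine ⟨fun j => (s.sort (· ≤ ·))[j.val]'(by rw [hl]; exact j.2), ?_, ?_⟩
    · simp only [mem_filter, mem_univ, true_and]
      intro j k h
      rcases h.eq_or_lt with rfl | h
      · exact le_rfl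
      have := Multiset.pairwise_sort s (· ≤ ·)
      rw [List.pairwise_iff_getElem] at this
      exact this _ _ _ _ h
    · apply Subtype.ext
      simp only
      conv_rhs => rw [← Multiset.sort_eq s (· ≤ ·)]
      congr 1
      apply List.ext_getElem <;> simp
  · intro g _
    simp [List.prod_ofFn, List.map_ofFn]

lemma sym_coeff {R Ω : Type*} [CommRing R] [DecidableEq Ω] [Fintype Ω] (u : Ω → ℕ → R) :
    ∑ s : Sym Ω n, ∏ l, u l (s.1.count l) =
      PowerSeries.coeff n (∏ l, PowerSeries.mk (u l)) := by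
  rw [PowerSeries.coeff_prod]
  refine sum_bij (fun s _ => Multiset.toFinsupp s.1) ?_ ?_ ?_ ?_
  · intro s _
    rw [mem_finsuppAntidiag]
    refine ⟨?_, subset_univ _⟩
    change ∑ a, s.1.count a = n
    rw [Multiset.sum_count_eq_card (by simp)]; exact s.2
  · intro s _ t _ h
    exact Subtype.ext (Multiset.toFinsupp.injective h)
  · intro l hl
    rw [mem_finsuppAntidiag'] at hl
    refine ⟨⟨Finsupp.toMultiset l, ?_⟩, mem_univ _, by simp⟩
    rw [Finsupp.card_toMultiset]; exact hl.1
  · intro s _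
    simp

lemma prod_map_count {R Ω : Type*} [CommRing R] [DecidableEq Ω] [Fintype Ω] (y : Ω → R)
    (s : Multiset Ω) : (s.map y).prod = ∏ l, y l ^ s.count l := by
  rw [Finset.prod_multiset_map_count]
  refine prod_subset (subset_univ _) (fun x _ hx => ?_)
  rw [Multiset.count_eq_zero_of_notMem (by simpa using hx), pow_zero]

lemma sym_prod {R : Type*} [CommRing R] {d N : ℕ} (x : Fin N → R) :
    ∑ s : Sym (Fin (d + 1) ×ₗ Fin N) n, (s.1.map (fun ω => x (ofLex ω).2)).prod =
      ∑ s : Sym (Fin N) n, ∏ l, (((d + s.1.count l).choose d : R) * x l ^ s.1.count l) := by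
  classical
  simp only [prod_map_count]
  refine (sym_coeff (fun (ω : Fin (d + 1) ×ₗ Fin N) k => x (ofLex ω).2 ^ k)).trans
    (Eq.trans ?_ (sym_coeff (fun l k => ((d + k).choose d : R) * x l ^ k)).symm)
  congr 1
  rw [← Equiv.prod_comp (toLex : Fin (d + 1) × Fin N ≃ _), Fintype.prod_prod_type_right]
  refine prod_congr rfl (fun l _ => ?_)
  simp only [ofLex_toLex, prod_const, card_univ, Fintype.card_fin]
  have h1 : (PowerSeries.mk fun k => x l ^ k) = PowerSeries.rescale (x l) (PowerSeries.mk 1) := by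
    ext k; simp [PowerSeries.coeff_rescale]
  rw [h1, ← map_pow, PowerSeries.mk_one_pow_eq_mk_choose_add]
  ext k; simp [PowerSeries.coeff_rescale, mul_comm]

lemma rhs_eval {R : Type*} [CommRing R] {d N : ℕ} :
    ∑ π : Equiv.Perm (Fin n), ∑ β : Finpartition (univ : Finset (Fin n)),
      (((d + 1).descFactorial β.parts.card : ℕ) : MvPolynomial (Fin N) R) *
        fund R N n (des n (insTab (word (refill β π)))) =
    (n.factorial : MvPolynomial (Fin N) R) * ∑ s : Sym (Fin N) n,
      ∏ l, (((d + s.1.count l).choose d : MvPolynomial (Fin N) R) *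
        MvPolynomial.X l ^ s.1.count l) := by
  classical
  rw [← sym_prod, ← mono_sym]
  have h2 := bij2 (n := n) (a := d + 1) (MvPolynomial.X : Fin N → MvPolynomial (Fin N) R)
  have h1 := bij1 (n := n) (a := d + 1) (MvPolynomial.X : Fin N → MvPolynomial (Fin N) R)
  have h3 := h1.trans h2
  rw [sum_filter, sum_filter, Fintype.sum_prod_type, Fintype.sum_prod_type] at h3
  simp only [Fintype.sum_prod_type, sum_const, card_univ, Fintype.card_perm, Fintype.card_fin,
    nsmul_eq_mul] at h3
  rw [sum_filter]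
  refine Eq.trans ?_ (h3.trans (by congr))
  rw [sum_comm (s := (univ : Finset (Fin n → Fin (d + 1))))]
  refine sum_congr rfl (fun π _ => ?_)
  rw [← sum_fiberwise (s := (univ : Finset (Fin n → Fin (d + 1)))) (g := fun d' => kerP d')]
  refine sum_congr rfl (fun β _ => ?_)
  rw [← card_ker, sum_congr rfl (g := fun _ => fund R N n (des n (insTab (word (refill β π)))))]
  · simp
  · intro d' hd'
    rw [(mem_filter.1 hd').2, fund, sum_filter]
    refine sum_congr rfl (fun i _ => ?_)
    exact if_congr (cond_iff (refP β π) i).symm rfl rfl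

lemma row_eval (d p : ℕ) :
    ∏ c ∈ range p, (((d + 1 : ℕ) : ℚ) + ((p - 1 - c : ℕ) : ℚ)) =
      (p.factorial : ℚ) * ((d + p).choose d : ℚ) := by
  rw [prod_range_reflect (fun c => ((d + 1 : ℕ) : ℚ) + (c : ℚ)) p]
  have := Nat.ascFactorial_eq_factorial_mul_choose d p
  rw [Nat.ascFactorial_eq_prod_range] at this
  rw [Nat.choose_symm_add, ← Nat.cast_mul, ← this]
  push_cast
  rfl

lemma parts_prod {Ω : Type*} [DecidableEq Ω] [Fintype Ω] {R : Type*} [CommRing R] (φ : ℕ → R)
    (h : φ 0 = 1) (s : Sym Ω n) :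
    ((Nat.Partition.ofSym s).parts.map φ).prod = ∏ l, φ (s.1.count l) := by
  simp only [Nat.Partition.ofSym, Multiset.map_map]
  change ∏ a ∈ s.1.toFinset, φ (s.1.count a) = _
  refine prod_subset (subset_univ _) (fun x _ hx => ?_)
  rw [Multiset.count_eq_zero_of_notMem (by simpa using hx), h]

lemma lhs_eval {d N : ℕ} :
    ∑ μ : n.Partition, MvPolynomial.C (((n.factorial : ℚ) / ((μ.parts.map Nat.factorial).prod : ℕ)) *
        (μ.parts.map (fun p => ∏ c ∈ range p,
          (((d + 1 : ℕ) : ℚ) + ((p - 1 - c : ℕ) : ℚ)))).prod) * MvPolynomial.msymm (Fin N) ℚ μ =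
    (n.factorial : MvPolynomial (Fin N) ℚ) * ∑ s : Sym (Fin N) n,
      ∏ l, (((d + s.1.count l).choose d : MvPolynomial (Fin N) ℚ) *
        MvPolynomial.X l ^ s.1.count l) := by
  rw [mul_sum, ← Fintype.sum_fiberwise (fun s : Sym (Fin N) n => Nat.Partition.ofSym s)]
  refine sum_congr rfl (fun μ _ => ?_)
  rw [MvPolynomial.msymm, mul_sum]
  refine sum_congr rfl (fun s _ => ?_)
  obtain ⟨s, rfl⟩ := s
  simp only
  rw [prod_map_count MvPolynomial.X, prod_mul_distrib, ← mul_assoc]
  congr 1
  have e1 : (((Nat.Partition.ofSym s).parts.map Nat.factorial).prod : ℚ) =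
      ∏ l, ((s.1.count l).factorial : ℚ) := by
    rw [← parts_prod (fun k => (k.factorial : ℚ)) (by simp) s]
    simp [Multiset.map_map]
  simp only [row_eval]
  rw [parts_prod (fun p => (p.factorial : ℚ) * ((d + p).choose d : ℚ)) (by simp) s, e1,
    prod_mul_distrib, ← mul_assoc, div_mul_cancel₀ _ (prod_ne_zero_iff.2 (fun l _ => by positivity))]
  simp

end Pool.Agent.H.MP_d77547_co
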